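import Mathlib

/-! Basic closure properties of `REPred` in terms of computable stage predicates. -/

set_option autoImplicit false

namespace Pool.Agent.Q9h3

open Nat.Partrec (Code)

variable {α β : Type*} [Primcodable α] [Primcodable β]

/-- stage-wise description of an r.e. predicate -/
theorem re_of_stage {p : α → Prop} (f : α → ℕ → Bool) (hf : Computable₂ f)
    (h : ∀ a, p a ↔ ∃ s, f a s = true) : REPred p := by
  have h1 : Partrec fun a => Nat.rfind (fun n => Part.some (f a n) : ℕ →. Bool) :=
    Partrec.rfind (p := fun a n => Part.some (f a n)) hf.partrec₂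
  refine (h1.dom_re).of_eq ?_
  intro a
  rw [h a]
  refine (Nat.rfind_dom (p := (fun n => Part.some (f a n) : ℕ →. Bool))).trans ?_
  constructor
  · rintro ⟨n, hn, -⟩
    exact ⟨n, (Part.mem_some_iff.1 hn).symm⟩
  · rintro ⟨n, hn⟩
    exact ⟨n, Part.mem_some_iff.2 hn.symm, fun _ => trivial⟩

theorem exists_code_of_re {p : α → Prop} (hp : REPred p) :
    ∃ c : Code, ∀ a, p a ↔ ∃ s, (Code.evaln s c (Encodable.encode a)).isSome = true := by
  unfold REPred at hp
  obtain ⟨c, hc⟩ := Code.exists_code.1 hp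
  refine ⟨c, fun a => ?_⟩
  have h2 : c.eval (Encodable.encode a) =
      (Part.assert (p a) fun _ => Part.some ()).map Encodable.encode := by
    rw [hc]; simp
  constructor
  · intro ha
    have : (c.eval (Encodable.encode a)).Dom := by
      rw [h2]; exact ⟨ha, trivial⟩
    obtain ⟨x, hx⟩ := Part.dom_iff_mem.1 this
    obtain ⟨k, hk⟩ := Code.evaln_complete.1 hx
    exact ⟨k, by rw [Option.mem_def] at hk; rw [hk]; rfl⟩
  · rintro ⟨s, hs⟩
    obtain ⟨x, hx⟩ := Option.isSome_iff_exists.1 hs
    have : x ∈ c.eval (Encodable.encode a) := Code.evaln_sound hx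
    have h3 : (c.eval (Encodable.encode a)).Dom := Part.dom_iff_mem.2 ⟨x, this⟩
    rw [h2] at h3
    exact h3.1

/-- Stage function of an r.e. predicate. -/
theorem stage_of_re {p : α → Prop} (hp : REPred p) :
    ∃ f : α → ℕ → Bool, Computable₂ f ∧ ∀ a, p a ↔ ∃ s, f a s = true := by
  obtain ⟨c, hc⟩ := exists_code_of_re hp
  refine ⟨fun a s => (Code.evaln s c (Encodable.encode a)).isSome, ?_, hc⟩
  have h1 : Computable fun x : α × ℕ => ((x.2, c), Encodable.encode x.1) :=
    (Computable.snd.pair (Computable.const c)).pair (Computable.encode.comp Computable.fst)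
  exact (Primrec.option_isSome.to_comp.comp (Code.primrec_evaln.to_comp.comp h1))

theorem re_comp {p : β → Prop} (hp : REPred p) {f : α → β} (hf : Computable f) :
    REPred (fun a => p (f a)) := by
  obtain ⟨g, hg, h⟩ := stage_of_re hp
  refine re_of_stage (fun a s => g (f a) s) ?_ (fun a => h (f a))
  exact Computable₂.comp hg (hf.comp Computable.fst) Computable.snd

theorem re_exists {p : α → ℕ → Prop} (hp : REPred (fun x : α × ℕ => p x.1 x.2)) :
    REPred (fun a => ∃ n, p a n) := by
  obtain ⟨g, hg, h⟩ := stage_of_re hp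
  refine re_of_stage (fun a s => g (a, (Nat.unpair s).1) (Nat.unpair s).2) ?_ ?_
  · have hu : Computable fun x : α × ℕ => Nat.unpair x.2 :=
      Primrec.unpair.to_comp.comp Computable.snd
    exact Computable₂.comp hg (Computable.fst.pair (Computable.fst.comp hu))
      (Computable.snd.comp hu)
  · intro a
    constructor
    · rintro ⟨n, hn⟩
      obtain ⟨s, hs⟩ := (h (a, n)).1 hn
      exact ⟨Nat.pair n s, by simpa using hs⟩
    · rintro ⟨s, hs⟩
      exact ⟨(Nat.unpair s).1, (h (a, _)).2 ⟨_, hs⟩⟩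

theorem re_and {p q : α → Prop} (hp : REPred p) (hq : REPred q) :
    REPred (fun a => p a ∧ q a) := by
  obtain ⟨f, hf, h⟩ := stage_of_re hp
  obtain ⟨g, hg, h'⟩ := stage_of_re hq
  refine re_of_stage (fun a s => f a (Nat.unpair s).1 && g a (Nat.unpair s).2) ?_ ?_
  · have hu : Computable fun x : α × ℕ => Nat.unpair x.2 :=
      Primrec.unpair.to_comp.comp Computable.snd
    exact (Primrec.and.to_comp).comp
      (Computable₂.comp hf Computable.fst (Computable.fst.comp hu))
      (Computable₂.comp hg Computable.fst (Computable.snd.comp hu))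
  · intro a
    rw [h a, h' a]
    constructor
    · rintro ⟨⟨s, hs⟩, ⟨t, ht⟩⟩
      exact ⟨Nat.pair s t, by simp [hs, ht]⟩
    · rintro ⟨s, hs⟩
      simp only [Bool.and_eq_true] at hs
      exact ⟨⟨_, hs.1⟩, ⟨_, hs.2⟩⟩

theorem re_or {p q : α → Prop} (hp : REPred p) (hq : REPred q) :
    REPred (fun a => p a ∨ q a) := by
  obtain ⟨f, hf, h⟩ := stage_of_re hp
  obtain ⟨g, hg, h'⟩ := stage_of_re hq
  refine re_of_stage (fun a s => f a s || g a s) ?_ ?_
  · exact (Primrec.or.to_comp).comp hf hg
  · intro a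
    rw [h a, h' a]
    constructor
    · rintro (⟨s, hs⟩ | ⟨s, hs⟩)
      · exact ⟨s, by simp [hs]⟩
      · exact ⟨s, by simp [hs]⟩
    · rintro ⟨s, hs⟩
      simp only [Bool.or_eq_true] at hs
      rcases hs with hs | hs
      · exact Or.inl ⟨s, hs⟩
      · exact Or.inr ⟨s, hs⟩

/-- The universal r.e. predicate: code `e.1` halts on `e.2`. -/
def U (c x : ℕ) : Prop :=
  ∃ s, (Code.evaln s (Denumerable.ofNat Code c) x).isSome = true

theorem U_re : REPred (fun x : ℕ × ℕ => U x.1 x.2) := by
  refine re_of_stage (fun x s => (Code.evaln s (Denumerable.ofNat Code x.1) x.2).isSome) ?_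
    (fun _ => Iff.rfl)
  have h1 : Computable fun x : (ℕ × ℕ) × ℕ => ((x.2, Denumerable.ofNat Code x.1.1), x.1.2) :=
    (Computable.snd.pair ((Computable.ofNat Code).comp
      (Computable.fst.comp Computable.fst))).pair (Computable.snd.comp Computable.fst)
  exact (Primrec.option_isSome.to_comp.comp (Code.primrec_evaln.to_comp.comp h1))

theorem U_re_comp {f g : α → ℕ} (hf : Computable f) (hg : Computable g) :
    REPred (fun a => U (f a) (g a)) :=
  re_comp (p := fun x : ℕ × ℕ => U x.1 x.2) U_re (f := fun a => (f a, g a)) (hf.pair hg)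

theorem exists_U {p : α → Prop} (hp : REPred p) :
    ∃ c : ℕ, ∀ a, p a ↔ U c (Encodable.encode a) := by
  obtain ⟨c, hc⟩ := exists_code_of_re hp
  refine ⟨Encodable.encode c, fun a => ?_⟩
  rw [hc a]; simp [U]

end Pool.Agent.Q9h3
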